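import Pool.Agent.Helper287.HP.Main

set_option autoImplicit false

/-! A semisimple weakly amenable commutative Banach algebra without the homomorphism property. -/

namespace Pool.Agent.Results.MP_7549e3_an.SemisimpleCounterexample

/-- A bounded linear map `D` from `A` to its dual is a derivation:
`D (a b) = a · D b + D a · b`, where `(a · f) x = f (x a)` and `(f · a) x = f (a x)`. -/
def IsDualDerivation (A : Type) [NormedCommRing A] [NormedAlgebra ℂ A]
    (D : A →L[ℂ] (A →L[ℂ] ℂ)) : Prop :=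
  ∀ a b x : A, D (a * b) x = D b (x * a) + D a (b * x)

/-- `D` is inner: `D a = a · f - f · a` for some `f` in the dual. -/
def IsInner (A : Type) [NormedCommRing A] [NormedAlgebra ℂ A]
    (D : A →L[ℂ] (A →L[ℂ] ℂ)) : Prop :=
  ∃ f : A →L[ℂ] ℂ, ∀ a x : A, D a x = f (x * a) - f (a * x)

/-- Every bounded derivation from `A` to its dual is inner. -/
def WeaklyAmenable (A : Type) [NormedCommRing A] [NormedAlgebra ℂ A] : Prop :=
  ∀ D : A →L[ℂ] (A →L[ℂ] ℂ), IsDualDerivation A D → IsInner A D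

/-- There are a complex commutative (unital) Banach algebra `A` which is semisimple, is not radical
and is weakly amenable (it is a Beurling algebra `ℓ¹(ℤ, Ω)` with `1 ≤ Ω n ≤ exp √|n|`), a complex
commutative Banach algebra `B`, and continuous homomorphisms `φ ≠ ψ` from `A` to `B` such that
`φ a - ψ a` lies in the Jacobson radical of `B` for each `a`. -/
theorem result :
    ∃ (A : Type) (_ : NormedCommRing A) (_ : NormedAlgebra ℂ A) (_ : CompleteSpace A),
      (⊥ : Ideal A).jacobson = ⊥ ∧ (⊥ : Ideal A).jacobson ≠ ⊤ ∧ WeaklyAmenable A ∧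
      (∃ (Ω : ℤ → ℝ) (ι : AddMonoidAlgebra ℂ ℤ →ₐ[ℂ] A),
        (∀ n, 1 ≤ Ω n ∧ Ω n ≤ Real.exp (Real.sqrt |(n : ℝ)|)) ∧
        (∀ m n, Ω (m + n) ≤ Ω m * Ω n) ∧ DenseRange ι ∧
        ∀ P, ‖ι P‖ = ∑ n ∈ P.coeff.support, ‖P.coeff n‖ * Ω n) ∧
      ∃ (B : Type) (_ : NormedCommRing B) (_ : NormedAlgebra ℂ B) (_ : CompleteSpace B)
        (φ ψ : A →ₐ[ℂ] B), Continuous φ ∧ Continuous ψ ∧ φ ≠ ψ ∧
          ∀ a, φ a - ψ a ∈ (⊥ : Ideal B).jacobson := by
  obtain ⟨A, i1, i2, i3, ⟨h1, h2⟩, h3, h4, h5⟩ := Pool.Agent.Helper287.HP.main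
  refine ⟨A, i1, i2, i3, h1, ?_, ?_, h3, h5⟩
  · rw [h1]
    exact bot_ne_top
  · intro D hD
    refine ⟨0, fun a x => ?_⟩
    rw [h4 D hD]
    simp

end Pool.Agent.Results.MP_7549e3_an.SemisimpleCounterexample
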